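import Pool.Agent.MT100B.Stmts
import Pool.Agent.Helper90_MT100.Hg0

/-! HG0 of MT100B: the coefficients of the holomorphic solution, odd order. -/

set_option autoImplicit false

namespace Pool.Agent.MT100B.H90

open Finset Pool.Agent.MT100

/-- the constant term of the additional factor -/
def w0 (k : ℕ) : ℚ := ∏ j ∈ range k, (((j : ℚ) + 1 / 2) * ((j : ℚ) + 1)⁻¹)

theorem w0_zero : w0 0 = 1 := by simp [w0]

theorem w0_succ (k : ℕ) : w0 (k + 1) = w0 k * (((k : ℚ) + 1 / 2) * ((k : ℚ) + 1)⁻¹) := by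
  simp [w0, prod_range_succ]

theorem w0_pos (k : ℕ) : 0 < w0 k := by
  unfold w0
  apply prod_pos
  intro j _
  positivity

theorem w0_ge (k : ℕ) : 1 / 2 ≤ w0 (k + 1) * ((k : ℚ) + 1) := by
  induction k with
  | zero => norm_num [w0_succ, w0_zero]
  | succ k ih =>
    have hk : (0 : ℚ) ≤ k := Nat.cast_nonneg k
    have hw := w0_pos (k + 1)
    rw [w0_succ]
    push_cast
    have h1 : w0 (k + 1) * (((k : ℚ) + 1 + 1 / 2) * ((k : ℚ) + 1 + 1)⁻¹) * ((k : ℚ) + 1 + 1) =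
        w0 (k + 1) * ((k : ℚ) + 1 + 1 / 2) := by
      field_simp
    rw [h1]
    refine ih.trans (mul_le_mul_of_nonneg_left ?_ hw.le)
    linarith

theorem constantCoeff_Ch (k : ℕ) : PowerSeries.constantCoeff (Ch k) = w0 k := by
  unfold Ch w0
  rw [map_prod]
  simp only [map_mul, PowerSeries.constantCoeff_inv, map_add,
    PowerSeries.constantCoeff_C, PowerSeries.constantCoeff_X, add_zero]

theorem coeff_Hyp (D : Dat) (a : Fin (ro D)) (k : ℕ) :
    PowerSeries.coeff k (Hyp D a (fz D)) =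
      (k : ℚ) ^ (a : ℕ) * (D.lam ^ k * (∏ i, MT100.H90.w (D.al i) k) * w0 k) := by
  have h : PowerSeries.coeff k (Hyp D a (fz D)) =
      PowerSeries.coeff 0 ((PowerSeries.C (k : ℚ) + PowerSeries.X) ^ (a : ℕ) * Ak D k) := by
    simp only [Hyp, PowerSeries.coeff_mk]
    rfl
  rw [h, PowerSeries.coeff_zero_eq_constantCoeff_apply, map_mul, Ak, map_mul,
    MT100.H90.constantCoeff_Ak, constantCoeff_Ch]
  simp

theorem hg0 : Hg0Stmt := by
  intro D
  have h00 : ∀ k, PowerSeries.coeff k (Hyp D (fz D) (fz D)) =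
      D.lam ^ k * (∏ i, MT100.H90.w (D.al i) k) * w0 k := by
    intro k
    rw [coeff_Hyp]
    show (k : ℚ) ^ 0 * _ = _
    simp
  refine ⟨fun a k => by rw [coeff_Hyp, h00], (∏ i, (D.al i * (1 - D.al i))) * (1 / 2), ?_, ?_⟩
  · refine mul_pos ?_ (by norm_num)
    apply prod_pos
    intro i _
    exact mul_pos (D.al_pos i) (sub_pos.mpr (D.al_lt i))
  · intro k hk
    obtain ⟨k, rfl⟩ : ∃ m, k = m + 1 := ⟨k - 1, by omega⟩
    rw [h00]
    have h1 : ∏ i, (D.al i * (1 - D.al i)) ≤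
        (∏ i, MT100.H90.w (D.al i) (k + 1)) * ((k : ℚ) + 1) ^ D.s := by
      have : ((k : ℚ) + 1) ^ D.s = ∏ _i : Fin D.s, ((k : ℚ) + 1) := by simp
      rw [this, ← prod_mul_distrib]
      apply prod_le_prod
      · intro i _
        exact (mul_pos (D.al_pos i) (sub_pos.mpr (D.al_lt i))).le
      · intro i _
        exact MT100.H90.w_ge _ (D.al_pos i) (D.al_lt i) k
    have h0 : 0 ≤ ∏ i, (D.al i * (1 - D.al i)) := prod_nonneg fun i _ =>
      (mul_pos (D.al_pos i) (sub_pos.mpr (D.al_lt i))).le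
    have h2 : (∏ i, (D.al i * (1 - D.al i))) * (1 / 2) ≤
        ((∏ i, MT100.H90.w (D.al i) (k + 1)) * ((k : ℚ) + 1) ^ D.s) *
          (w0 (k + 1) * ((k : ℚ) + 1)) :=
      mul_le_mul h1 (w0_ge k) (by norm_num) (h0.trans h1)
    have := mul_le_mul_of_nonneg_left h2 (pow_pos D.lam_pos (k + 1)).le
    push_cast
    calc _ = D.lam ^ (k + 1) * ((∏ i, (D.al i * (1 - D.al i))) * (1 / 2)) := by ring
      _ ≤ _ := this
      _ = _ := by rw [pow_succ ((k : ℚ) + 1) D.s]; ring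

end Pool.Agent.MT100B.H90
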