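import Pool.Agent.MT100B.Stmts
import Pool.Agent.Helper90_MT100.TraG

/-! TRA of MT100B: the translated systems, odd order. -/

set_option autoImplicit false

namespace Pool.Agent.MT100B.H90

open Pool.Agent.MT100

theorem A0_lin (D : Dat) (i j : Fin (ro D)) : A0 D i j =
    Polynomial.C (if (i : ℕ) + 1 = j then (1 : ℚ) else 0) +
      Polynomial.C ((if (i : ℕ) + 1 = j then -D.lam else 0) +
        (if (i : ℕ) + 1 = ro D then D.lam * (cf D).coeff j else 0)) * Polynomial.X := by
  unfold A0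
  split_ifs <;> simp <;> ring

/-- TRA -/
theorem tra (_ : GclStmt) (h1 : HypStmt) (h2 : HgtStmt) (h3 : PaiStmt) : TraStmt := by
  intro D κ
  obtain ⟨K, hK, gK⟩ := MT100.H90.exists_inv (Nat.succ_pos _) (Hyp D) (Jm D) (h3 D).2 (h2 D)
  exact MT100.H90.isG_translate (Hyp D) K D.lam _ _ (A0 D) (A0_lin D) hK (h1 D).1 (h1 D).2
    (h2 D) gK κ

end Pool.Agent.MT100B.H90
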