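import Pool.Agent.MT100B.StmtsP
import Pool.Agent.Helper90_MT100.TrpG

/-! TRP of MT100B: the systems with a polynomial parameter, odd order. -/

set_option autoImplicit false

namespace Pool.Agent.MT100B.H90

open Pool.Agent.MT100

/-- TRP -/
theorem trp (hT : TrgStmt) (hE : EnsStmt) (h1 : HypStmt) (h2 : HgtStmt) (h3 : PaiStmt) :
    TrpStmt := by
  intro D φ hφ κ
  obtain ⟨K, hK, gK⟩ := MT100.H90.exists_inv (Nat.succ_pos _) (Hyp D) (Jm D) (h3 D).2 (h2 D)
  exact MT100.H90.trp_gen hT hE (Hyp D) K D.lam (A0 D) hK (h1 D).1 (h1 D).2 (h2 D) gK φ hφ κ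

end Pool.Agent.MT100B.H90
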